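import Pool.Agent.Helper43.EV.Goals

/-!
# Project EV (MP_d4e2f9_lc), packet STB
-/

set_option autoImplicit false

namespace Pool.Agent.Helper46.EV.STB

open Module
open Pool.Agent.Helper43.EV
open Pool.Agent.Helper3.QGr (prj)

theorem t (hFIB : Pool.Agent.Helper43.EV.FIB) (hCLS : Pool.Agent.Helper43.EV.CLS)
    (hLIN : Pool.Agent.Helper43.EV.LIN) (hORB : Pool.Agent.Helper43.EV.ORB)
    (hPIB : Pool.Agent.Helper43.EV.PIB) : Pool.Agent.Helper43.EV.STB := by
  intro F _ _ p hp _ V _ _ _ ψ z hz a b h hF S hS hA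
  obtain ⟨NA, NB, s, hNA, hNB, hs, h1, h2, hpA, hpB, hcA, hcB⟩ := hLIN F p V ψ z hz
  obtain ⟨π, hπ1, hπ2⟩ := hPIB F V ψ z hz s hs a b
  haveI hVf : Finite V := Module.finite_of_finite F
  haveI hs1 : Finite (Submodule F V) :=
    Finite.of_injective (fun A : Submodule F V => (A : Set V)) SetLike.coe_injective
  haveI hs2 : Finite (Submodule F (LinearMap.ker ψ)) :=
    Finite.of_injective (fun A : Submodule F (LinearMap.ker ψ) => (A : Set (LinearMap.ker ψ)))
      SetLike.coe_injective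
  haveI hf1 : Finite (Fl F V (a + 1) (b + 1)) := Subtype.finite
  haveI hf2 : Finite (Fl F (LinearMap.ker ψ) a b) := Subtype.finite
  refine hFIB (PG p) (TG F V) (Fl F V (a + 1) (b + 1)) (TG F (LinearMap.ker ψ))
    (Fl F (LinearMap.ker ψ) a b) NB s {X | ¬ X.1.1 ≤ LinearMap.ker ψ} π
    (Nat.card F ^ (finrank F V - (a + 1))) h ?_ ?_ ?_ ?_ hF S ?_ ?_ hA
  · intro H hH
    exact (hCLS p p hp.out hp.out).2.2.2.2.2 (TG F V) (TG F (LinearMap.ker ψ)) NB s H hcB hpB hH
  · intro g hg v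
    exact hπ1 g ((hNB g).1 hg) v
  · intro g v
    exact hπ2 g v
  · intro v hv
    exact hORB F V ψ z hz NB hNB h2 (a + 1) (b + 1) v hv
  · intro g hg v hv
    refine hS g ?_ v hv
    intro x
    obtain ⟨w, hw⟩ := (hNB g).1 hg
    rw [hw x, map_add, map_smul]
    have : ψ (w : V) = 0 := w.2
    rw [this, smul_zero, add_zero]
  · intro g v hv
    refine hS (s g) ?_ v hv
    intro x
    rw [hs g x, map_add, map_smul, hz]
    have : ψ ((((g : LinearMap.ker ψ ≃ₗ[F] LinearMap.ker ψ) (prj ψ z hz x) : LinearMap.ker ψ)) : V) = 0 :=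
      LinearMap.mem_ker.1 (((g : LinearMap.ker ψ ≃ₗ[F] LinearMap.ker ψ) (prj ψ z hz x)).2)
    rw [this, zero_add, smul_eq_mul, mul_one]

end Pool.Agent.Helper46.EV.STB
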